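import Mathlib

set_option autoImplicit false

namespace Pool.Agent.H.MP_977c67_al.Lang

open ContextFreeGrammar

abbrev Al := Bool × Bool

inductive NT where
  | S : NT
  | M : NT
  | T : Bool → NT
  deriving DecidableEq

abbrev t (l s : Bool) : Symbol Al NT := Symbol.terminal (l, s)
abbrev n (N : NT) : Symbol Al NT := Symbol.nonterminal N

def rule (p : Fin 7 × Bool × Bool × Bool) : ContextFreeRule Al NT :=
  match p with
  | (0, l, a, b) => ⟨.S, [t l a, t l b]⟩
  | (1, a, b, _) => ⟨.S, [t true a, t false b, t true a]⟩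
  | (2, a, _, _) => ⟨.S, [t false a, n .M, t false a]⟩
  | (3, a, _, _) => ⟨.M, [t true true, t false a, t true false]⟩
  | (4, _, _, _) => ⟨.M, [n (.T false), t false true, n .M, t false false, n (.T true)]⟩
  | (5, a, _, _) => ⟨.T a, [t true a]⟩
  | (6, a, _, _) => ⟨.T a, [n (.T false), t false a, n (.T true)]⟩

abbrev g : ContextFreeGrammar Al := ⟨NT, .S, Finset.univ.image rule⟩

lemma prod (p : Fin 7 × Bool × Bool × Bool) :
    g.Derives [n (rule p).input] (rule p).output :=
  Produces.single ⟨rule p, Finset.mem_image_of_mem _ (Finset.mem_univ _),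
    ContextFreeRule.Rewrites.input_output⟩

lemma dapp {u u' v v' : List (Symbol Al NT)} (h : g.Derives u u') (h' : g.Derives v v') :
    g.Derives (u ++ v) (u' ++ v') :=
  (h.append_right v).trans (h'.append_left u')

def W : ℕ → Bool → List Al
  | 0, s => [(true, s)]
  | k + 1, s => W k false ++ [(false, s)] ++ W k true

lemma dT (k : ℕ) : ∀ s, g.Derives [n (.T s)] ((W k s).map Symbol.terminal) := by
  induction k with
  | zero => intro s; exact prod (5, s, s, s)
  | succ k ih =>
    intro s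
    refine (prod (6, s, s, s)).trans ?_
    simpa [W, rule] using dapp (ih false) (dapp (Derives.refl [t false s]) (ih true))

lemma dM (k : ℕ) (a : Bool) :
    g.Derives [n .M] ((W k true ++ [(false, a)] ++ W k false).map Symbol.terminal) := by
  induction k with
  | zero => exact prod (3, a, a, a)
  | succ k ih =>
    refine (prod (4, a, a, a)).trans ?_
    simpa [W, rule] using dapp (dT k false) (dapp (Derives.refl [t false true])
      (dapp ih (dapp (Derives.refl [t false false]) (dT k true))))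

lemma errW (k : ℕ) (s a : Bool) : ∃ v ∈ g.language, v <:+: W k s ++ [(false, a)] ++ W k s := by
  cases k with
  | zero => exact ⟨_, prod (1, s, a, a), List.infix_refl _⟩
  | succ k =>
    refine ⟨[(false, s)] ++ (W k true ++ [(false, a)] ++ W k false) ++ [(false, s)], ?_,
      W k false, W k true, by simp [W]⟩
    refine (prod (2, s, s, s)).trans ?_
    simpa [rule] using dapp (Derives.refl [t false s]) (dapp (dM k a) (Derives.refl [t false s]))

def P (m : ℕ) (x : Al) : Prop :=
  ∃ k a : ℕ, m = 2 ^ k * (2 * a + 1) ∧ x = (decide (k = 0), decide (a % 2 = 1))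

lemma uniq {k j a b : ℕ} (h : 2 ^ k * (2 * a + 1) = 2 ^ j * (2 * b + 1)) : k = j ∧ a = b := by
  induction k generalizing j with
  | zero =>
    cases j with
    | zero => simp at h; omega
    | succ j =>
      exfalso
      exact (by omega : ∀ x y : ℕ, 2 * x + 1 ≠ 2 * y) a (2 ^ j * (2 * b + 1))
        (by rw [pow_zero, one_mul] at h; rw [h]; ring)
  | succ k ih =>
    cases j with
    | zero =>
      exfalso
      exact (by omega : ∀ x y : ℕ, 2 * x + 1 ≠ 2 * y) b (2 ^ k * (2 * a + 1))
        (by rw [pow_zero, one_mul] at h; rw [← h]; ring)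
    | succ j =>
      have : 2 ^ k * (2 * a + 1) = 2 ^ j * (2 * b + 1) := by
        rw [pow_succ, pow_succ] at h; linarith
      obtain ⟨h1, h2⟩ := ih this
      exact ⟨by rw [h1], h2⟩

def I : NT → ℕ → ℕ → Prop
  | .S, _, _ => False
  | .M, s, e => ∃ k m : ℕ, s = 2 ^ k * (4 * m + 2) + 1 ∧ e = 2 ^ k * (4 * m + 6)
  | .T b, s, e => ∃ k a : ℕ, b = decide (a % 2 = 1) ∧ s = 2 ^ k * (2 * a) + 1 ∧
      e = 2 ^ k * (2 * a + 2)

def Fit : List (Symbol Al NT) → ℕ → ℕ → Prop
  | [], s, e => s = e
  | .terminal x :: u, s, e => P s x ∧ Fit u (s + 1) e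
  | .nonterminal N :: u, s, e => ∃ m, I N s m ∧ Fit u m e

lemma fit_append (u v : List (Symbol Al NT)) (s e : ℕ) :
    Fit (u ++ v) s e ↔ ∃ m, Fit u s m ∧ Fit v m e := by
  induction u generalizing s with
  | nil => simp [Fit]
  | cons x u ih =>
    cases x with
    | terminal x => simp only [List.cons_append, Fit, ih]; tauto
    | nonterminal N => simp only [List.cons_append, Fit, ih]; tauto

lemma P_int {k a : ℕ} {b : Bool} (h : P (2 ^ (k + 1) * (2 * a + 1)) (false, b)) :
    b = decide (a % 2 = 1) := by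
  obtain ⟨j, c, h1, h2⟩ := h
  obtain ⟨-, rfl⟩ := uniq h1
  exact (Prod.ext_iff.1 h2).2

lemma P_leaf {s : ℕ} {b : Bool} (h : P s (true, b)) :
    ∃ a, s = 2 * a + 1 ∧ b = decide (a % 2 = 1) := by
  obtain ⟨j, c, h1, h2⟩ := h
  have h3 : j = 0 := by simpa using (Prod.ext_iff.1 h2).1
  exact ⟨c, by simpa [h3] using h1, (Prod.ext_iff.1 h2).2⟩

lemma P_even {s : ℕ} {b : Bool} (h : P s (false, b)) : ∃ a, s = 2 * a := by
  obtain ⟨j, c, h1, h2⟩ := h
  have h3 : j ≠ 0 := by simpa using (Prod.ext_iff.1 h2).1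
  obtain ⟨j, rfl⟩ := Nat.exists_eq_succ_of_ne_zero h3
  exact ⟨2 ^ j * (2 * c + 1), by rw [h1, pow_succ]; ring⟩

lemma sound_rule (p : Fin 7 × Bool × Bool × Bool) (s e : ℕ) (h : Fit (rule p).output s e) :
    I (rule p).input s e := by
  obtain ⟨i, x, y, z⟩ := p
  fin_cases i
  · obtain ⟨h1, h2, -⟩ := h
    cases x with
    | true =>
      obtain ⟨a, ha, -⟩ := P_leaf h1
      obtain ⟨b, hb, -⟩ := P_leaf h2
      omega
    | false =>
      obtain ⟨a, ha⟩ := P_even h1
      obtain ⟨b, hb⟩ := P_even h2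
      omega
  · obtain ⟨h1, -, h2, -⟩ := h
    obtain ⟨a, ha, ha'⟩ := P_leaf h1
    obtain ⟨b, hb, hb'⟩ := P_leaf h2
    have := ha'.symm.trans hb'
    simp only [decide_eq_decide] at this
    omega
  · obtain ⟨h1, e', ⟨k, m, h2, h3⟩, h4, -⟩ := h
    have e1 : s = 2 ^ (k + 1) * (2 * m + 1) := by rw [pow_succ]; linarith
    have e2 : e' = 2 ^ (k + 1) * (2 * (m + 1) + 1) := by rw [pow_succ]; linarith
    rw [e1] at h1
    rw [e2] at h4
    have := (P_int h1).symm.trans (P_int h4)
    simp only [decide_eq_decide] at this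
    omega
  · obtain ⟨h1, -, h2, h3⟩ := h
    obtain ⟨a, ha, ha'⟩ := P_leaf h1
    have ha2 : a % 2 = 1 := by simpa using ha'
    have h4 : s + 1 + 1 + 1 = e := h3
    exact ⟨0, a / 2, by omega, by omega⟩
  · obtain ⟨m1, ⟨i, a, ha, hs, hm1⟩, h1, m2, ⟨k, m, h2, h3⟩, h4, e', ⟨j, b, hb, h5, h6⟩, h7⟩ := h
    have h8 : e' = e := h7
    have ha2 : a % 2 = 0 := by simpa using ha
    have hb2 : b % 2 = 1 := by simpa using hb
    obtain ⟨a, rfl⟩ : ∃ c, a = 2 * c := ⟨a / 2, by omega⟩
    obtain ⟨b, rfl⟩ : ∃ c, b = 2 * c + 1 := ⟨b / 2, by omega⟩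
    have e1 : m1 = 2 ^ (k + 1) * (2 * m + 1) := by rw [pow_succ]; linarith
    have e2 : 2 ^ (i + 1) * (2 * a + 1) = 2 ^ (k + 1) * (2 * m + 1) := by
      rw [← e1, pow_succ]; linarith
    have e3 : 2 ^ (j + 1) * (2 * b + 1) = 2 ^ (k + 1) * (2 * (m + 1) + 1) := by
      rw [pow_succ, pow_succ]; linarith
    obtain ⟨e4, rfl⟩ := uniq e2
    obtain ⟨e5, rfl⟩ := uniq e3
    obtain rfl : i = k := by omega
    obtain rfl : j = i := by omega
    rw [e1] at h1
    have ha3 : a % 2 = 1 := by simpa using P_int h1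
    obtain ⟨a, rfl⟩ : ∃ c, a = 2 * c + 1 := ⟨a / 2, by omega⟩
    exact ⟨j + 1, a, by rw [pow_succ]; linarith, by rw [pow_succ]; linarith⟩
  · obtain ⟨h1, h2⟩ := h
    obtain ⟨a, ha, ha'⟩ := P_leaf h1
    have h4 : s + 1 = e := h2
    exact ⟨0, a, ha', by omega, by omega⟩
  · obtain ⟨m1, ⟨i, a, ha, hs, hm1⟩, h1, e', ⟨j, b, hb, h5, h6⟩, h7⟩ := h
    have h8 : e' = e := h7
    have ha2 : a % 2 = 0 := by simpa using ha
    have hb2 : b % 2 = 1 := by simpa using hb
    obtain ⟨a, rfl⟩ : ∃ c, a = 2 * c := ⟨a / 2, by omega⟩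
    obtain ⟨b, rfl⟩ : ∃ c, b = 2 * c + 1 := ⟨b / 2, by omega⟩
    have e1 : m1 = 2 ^ (i + 1) * (2 * a + 1) := by rw [pow_succ]; linarith
    have e3 : 2 ^ (j + 1) * (2 * b + 1) = 2 ^ (i + 1) * (2 * a + 1) := by
      rw [pow_succ, pow_succ]; linarith
    obtain ⟨e5, rfl⟩ := uniq e3
    obtain rfl : j = i := by omega
    rw [e1] at h1
    exact ⟨j + 1, b, P_int h1, by rw [pow_succ]; linarith, by rw [pow_succ]; linarith⟩

lemma sound {u v : List (Symbol Al NT)} (h : g.Derives u v) (s e : ℕ) (hv : Fit v s e) :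
    Fit u s e := by
  induction h with
  | refl => exact hv
  | tail _ h ih =>
    apply ih
    obtain ⟨r, hr, hrw⟩ := h
    obtain ⟨p, -, rfl⟩ := Finset.mem_image.1 hr
    obtain ⟨x, y, rfl, rfl⟩ := hrw.exists_parts
    obtain ⟨m, h1, h2⟩ := (fit_append _ _ _ _).1 hv
    obtain ⟨m', h3, h4⟩ := (fit_append _ _ _ _).1 h1
    exact (fit_append _ _ _ _).2 ⟨m, (fit_append _ _ _ _).2
      ⟨m', h3, m, sound_rule p _ _ h4, rfl⟩, h2⟩

lemma not_fit {v : List Al} (hv : v ∈ g.language) (s e : ℕ) :
    ¬ Fit (v.map Symbol.terminal) s e := by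
  intro h
  obtain ⟨m, h1, -⟩ := sound hv s e h
  exact h1

lemma fitW (k : ℕ) : ∀ a : ℕ, Fit ((W k (decide (a % 2 = 1))).map Symbol.terminal)
    (2 ^ k * (2 * a) + 1) (2 ^ k * (2 * a + 2)) := by
  induction k with
  | zero => intro a; exact ⟨⟨0, a, by simp, by simp⟩, by simp [Fit]⟩
  | succ k ih =>
    intro a
    have h1 := ih (2 * a)
    have h2 := ih (2 * a + 1)
    rw [show decide (2 * a % 2 = 1) = false by simp] at h1
    rw [show decide ((2 * a + 1) % 2 = 1) = true by simp] at h2
    simp only [W, List.map_append, fit_append]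
    refine ⟨2 ^ k * (2 * (2 * a + 1)) + 1, ⟨2 ^ k * (2 * (2 * a) + 2), ?_, ?_, ?_⟩, ?_⟩
    · convert h1 using 1; ring
    · exact ⟨k + 1, a, by ring, by simp⟩
    · show _ = _
      ring
    · convert h2 using 1; ring

lemma W_length (k : ℕ) (s : Bool) : (W k s).length + 1 = 2 ^ (k + 1) := by
  induction k generalizing s with
  | zero => rfl
  | succ k ih =>
    have h1 := ih false
    have h2 := ih true
    simp only [W, List.length_append, List.length_singleton]
    rw [pow_succ]; omega

def seg (x : ℕ → Al) (c m : ℕ) : List Al := (List.range m).map fun i => x (c + i)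

lemma seg_add (x : ℕ → Al) (c m k : ℕ) : seg x c (m + k) = seg x c m ++ seg x (c + m) k := by
  simp [seg, List.range_add, add_assoc]

lemma fit_seg (x : ℕ → Al) (m : ℕ) : ∀ c s e, Fit ((seg x c m).map Symbol.terminal) s e →
    ∀ i < m, P (s + i) (x (c + i)) := by
  induction m with
  | zero => intro c s e _ i hi; omega
  | succ m ih =>
    intro c s e h i hi
    rw [add_comm m 1, seg_add] at h
    obtain ⟨h1, h2⟩ := h
    cases i with
    | zero => exact h1
    | succ i =>
      have := ih (c + 1) (s + 1) e h2 i (by omega)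
      convert this using 1
      · ring
      · congr 1; ring

lemma hier (x : ℕ → Al) (H : ∀ v ∈ g.language, ∀ c m, ¬ v <:+: seg x c m) (k : ℕ) :
    ∃ c, ∀ j, ∃ s a, seg x (c + j * 2 ^ (k + 1)) (2 ^ (k + 1)) = W k s ++ [(false, a)] := by
  induction k with
  | zero =>
    have h1 : ∀ m, (x (m + 1)).1 = !(x m).1 := by
      intro m
      by_contra h
      have h2 : (x (m + 1)).1 = (x m).1 := by simpa using h
      refine H [x m, x (m + 1)] ?_ m 2 (List.infix_refl _)
      have := prod (0, (x m).1, (x m).2, (x (m + 1)).2)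
      have e : x (m + 1) = ((x m).1, (x (m + 1)).2) := Prod.ext h2 rfl
      rw [e]
      exact this
    have h2 : ∀ c j, (x (c + j * 2)).1 = (x c).1 := by
      intro c j
      induction j with
      | zero => simp
      | succ j ih => rw [add_mul, one_mul, ← add_assoc, h1, h1, ih]; simp
    obtain ⟨c, hc⟩ : ∃ c, (x c).1 = true := by
      by_cases h : (x 0).1 = true
      · exact ⟨0, h⟩
      · exact ⟨1, by rw [h1]; simpa using h⟩
    refine ⟨c, fun j => ⟨(x (c + j * 2)).2, (x (c + j * 2 + 1)).2, ?_⟩⟩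
    have h3 := h2 c j
    have h4 := h1 (c + j * 2)
    rw [h3, hc] at h4
    rw [hc] at h3
    show [x (c + j * 2), x (c + j * 2 + 1)] = [(true, _), (false, _)]
    rw [← h3]
    congr 2
    exact Prod.ext h4 rfl
  | succ k ih =>
    obtain ⟨c, hc⟩ := ih
    choose s a hsa using hc
    have two : ∀ j, seg x (c + j * 2 ^ (k + 1)) (2 ^ (k + 1 + 1)) =
        W k (s j) ++ [(false, a j)] ++ W k (s (j + 1)) ++ [(false, a (j + 1))] := by
      intro j
      rw [pow_succ 2 (k + 1), mul_two, seg_add, hsa j, add_assoc c, ← add_one_mul, hsa (j + 1)]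
      simp
    have h1 : ∀ j, s (j + 1) = !(s j) := by
      intro j
      by_contra h
      have h2 : s (j + 1) = s j := by simpa using h
      obtain ⟨v, hv, hv2⟩ := errW k (s j) (a j)
      refine H v hv (c + j * 2 ^ (k + 1)) (2 ^ (k + 1 + 1)) ?_
      rw [two, h2]
      exact hv2.trans (List.prefix_append _ _).isInfix
    have h2 : ∀ d j, s (d + j * 2) = s d := by
      intro d j
      induction j with
      | zero => simp
      | succ j ih => rw [add_mul, one_mul, ← add_assoc, h1, h1, ih]; simp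
    obtain ⟨d, hd⟩ : ∃ d, s d = false := by
      by_cases h : s 0 = false
      · exact ⟨0, h⟩
      · exact ⟨1, by rw [h1]; simpa using h⟩
    refine ⟨c + d * 2 ^ (k + 1), fun j => ⟨a (d + j * 2), a (d + j * 2 + 1), ?_⟩⟩
    have h3 := two (d + j * 2)
    rw [h1, h2, hd] at h3
    rw [show c + d * 2 ^ (k + 1) + j * 2 ^ (k + 1 + 1) = c + (d + j * 2) * 2 ^ (k + 1) by ring, h3]
    rfl

theorem lang : (∀ v ∈ g.language, v ≠ []) ∧
    {u : List Al | ¬ ∃ v ∈ g.language, v <:+: u}.Infinite ∧
    ∀ w : List Al, w ≠ [] → ∃ n : ℕ, ∃ v ∈ g.language, v <:+: (List.replicate n w).flatten := by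
  have h0 : ∀ v ∈ g.language, v ≠ [] := by
    rintro _ hv rfl
    exact not_fit hv 0 0 rfl
  have hinf : {u : List Al | ¬ ∃ v ∈ g.language, v <:+: u}.Infinite := by
    refine Set.infinite_of_injective_forall_mem (f := fun k => W k false) ?_ ?_
    · intro k j h
      have h1 := W_length k false
      have h2 := W_length j false
      simp only at h
      rw [h, h2] at h1
      have := Nat.pow_right_injective (le_refl 2) h1
      omega
    · rintro k ⟨v, hv, p, q, h⟩
      have h1 := fitW k 0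
      rw [show decide (0 % 2 = 1) = false by simp, ← h] at h1
      simp only [List.map_append, fit_append] at h1
      obtain ⟨m, ⟨m', -, h2⟩, -⟩ := h1
      exact not_fit hv _ _ h2
  refine ⟨h0, hinf, fun w hw => ?_⟩
  by_contra hcon
  have hpos : 0 < w.length := List.length_pos_iff.2 hw
  let x : ℕ → Al := fun i => w[i % w.length]'(Nat.mod_lt _ hpos)
  have hper : ∀ i j, x (i + j * w.length) = x i := by
    intro i j; simp [x]
  have hflat : ∀ N, (List.replicate N w).flatten = seg x 0 (N * w.length) := by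
    intro N
    induction N with
    | zero => simp [seg]
    | succ N ih =>
      rw [List.replicate_succ', List.flatten_append, ih, add_one_mul, seg_add]
      congr 1
      simp only [List.flatten_cons, List.flatten_nil, List.append_nil]
      apply List.ext_getElem
      · simp [seg]
      · intro i h1 h2
        simp only [seg, List.getElem_map, List.getElem_range, zero_add]
        rw [add_comm, hper]
        simp [x, Nat.mod_eq_of_lt h1]
  have hH : ∀ v ∈ g.language, ∀ c m, ¬ v <:+: seg x c m := by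
    intro v hv c m h
    refine hcon ⟨c + m, v, hv, h.trans ?_⟩
    obtain ⟨r, hr⟩ : ∃ r, (c + m) * w.length = c + m + r :=
      Nat.exists_eq_add_of_le (Nat.le_mul_of_pos_right _ hpos)
    rw [hflat, hr, seg_add, seg_add, zero_add]
    exact List.infix_append _ _ _
  obtain ⟨c, hc⟩ := hier x hH (3 * w.length + 1)
  obtain ⟨s, a, h⟩ := hc 0
  set k := 3 * w.length with hk
  have hlen := W_length k false
  have hlt : k < 2 ^ k := Nat.lt_two_pow_self
  have h1 : seg x c (W k false).length = W k false := by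
    have e : 2 ^ (k + 1 + 1) = (W k false).length + (2 ^ (k + 1) + 1) := by
      rw [pow_succ 2 (k + 1)]; omega
    rw [zero_mul, add_zero, e, seg_add, W, List.append_assoc, List.append_assoc] at h
    exact (List.append_inj h (by simp [seg])).1
  have h2 := fitW k 0
  rw [show decide (0 % 2 = 1) = false by simp, ← h1] at h2
  have h3 := fit_seg x _ c _ _ h2
  rw [pow_succ] at hlen
  have h4 := h3 (w.length - 1) (by omega)
  have h5 := h3 (w.length - 1 + 2 * w.length) (by omega)
  rw [← add_assoc c, hper] at h5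
  obtain ⟨i, b, h6, h7⟩ := h4
  obtain ⟨j, d, h8, h9⟩ := h5
  have h10 : 2 ^ j * (2 * d + 1) = 2 ^ i * (2 * (3 * b + 1) + 1) := by
    rw [← h8, show 2 ^ i * (2 * (3 * b + 1) + 1) = 3 * (2 ^ i * (2 * b + 1)) by ring, ← h6]
    omega
  obtain ⟨-, rfl⟩ := uniq h10
  have h11 := (Prod.ext_iff.1 (h7.symm.trans h9)).2
  simp only [decide_eq_decide] at h11
  omega

end Pool.Agent.H.MP_977c67_al.Lang
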