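import Pool.Agent.H.MP_977c67_al.Lang

set_option autoImplicit false

namespace Pool.Agent.H.MP_977c67_al

open ContextFreeGrammar

section general
variable {T N : Type}

def Sem (sem : N → List T → Prop) : List (Symbol T N) → List T → Prop
  | [], w => w = []
  | .terminal x :: u, w => ∃ w', w = x :: w' ∧ Sem sem u w'
  | .nonterminal A :: u, w => ∃ w1 w2, w = w1 ++ w2 ∧ sem A w1 ∧ Sem sem u w2

lemma sem_append (sem : N → List T → Prop) (u v : List (Symbol T N)) (w : List T) :
    Sem sem (u ++ v) w ↔ ∃ w1 w2, w = w1 ++ w2 ∧ Sem sem u w1 ∧ Sem sem v w2 := by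
  induction u generalizing w with
  | nil => simp [Sem]
  | cons x u ih =>
    cases x with
    | terminal x =>
      simp only [List.cons_append, Sem, ih]
      constructor
      · rintro ⟨_, rfl, w1, w2, rfl, h1, h2⟩
        exact ⟨x :: w1, w2, rfl, ⟨w1, rfl, h1⟩, h2⟩
      · rintro ⟨_, w2, rfl, ⟨w1, rfl, h1⟩, h2⟩
        exact ⟨w1 ++ w2, rfl, w1, w2, rfl, h1, h2⟩
    | nonterminal A =>
      simp only [List.cons_append, Sem, ih]
      constructor
      · rintro ⟨w0, _, rfl, h0, w1, w2, rfl, h1, h2⟩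
        exact ⟨w0 ++ w1, w2, by simp, ⟨w0, w1, rfl, h0, h1⟩, h2⟩
      · rintro ⟨_, w2, rfl, ⟨w0, w1, rfl, h0, h1⟩, h2⟩
        exact ⟨w0, w1 ++ w2, by simp, h0, w1, w2, rfl, h1, h2⟩

lemma sem_term (sem : N → List T → Prop) (w : List T) : Sem sem (w.map Symbol.terminal) w := by
  induction w with
  | nil => rfl
  | cons x w ih => exact ⟨w, rfl, ih⟩

lemma sound (G : ContextFreeGrammar T) (sem : G.NT → List T → Prop)
    (h : ∀ r ∈ G.rules, ∀ w, Sem sem r.output w → sem r.input w) {w : List T}
    (hw : w ∈ G.language) : sem G.initial w := by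
  have key : ∀ u v, G.Derives u v → ∀ w, Sem sem v w → Sem sem u w := by
    intro u v huv
    induction huv with
    | refl => exact fun _ h => h
    | tail _ h' ih =>
      intro w hv
      apply ih
      obtain ⟨r, hr, hrw⟩ := h'
      obtain ⟨x, y, rfl, rfl⟩ := hrw.exists_parts
      obtain ⟨w1, w2, rfl, h1, h2⟩ := (sem_append _ _ _ _).1 hv
      obtain ⟨w3, w4, rfl, h3, h4⟩ := (sem_append _ _ _ _).1 h1
      exact (sem_append _ _ _ _).2 ⟨_, _, rfl, (sem_append _ _ _ _).2
        ⟨w3, w4, rfl, h3, w4, [], by simp, h r hr _ h4, rfl⟩, h2⟩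
  obtain ⟨w1, _, e, h1, rfl⟩ := key _ _ hw w (sem_term sem w)
  rw [e, List.append_nil]; exact h1

def lift {M : Type} (ι : N → M) : Symbol T N → Symbol (Option T) M
  | .terminal x => .terminal (some x)
  | .nonterminal A => .nonterminal (ι A)

def liftR {M : Type} (ι : N → M) (r : ContextFreeRule T N) : ContextFreeRule (Option T) M :=
  ⟨ι r.input, r.output.map (lift ι)⟩

lemma dapp {G : ContextFreeGrammar T} {u u' v v' : List (Symbol T G.NT)} (h : G.Derives u u')
    (h' : G.Derives v v') : G.Derives (u ++ v) (u' ++ v') :=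
  (h.append_right v).trans (h'.append_left u')

lemma drule {G : ContextFreeGrammar T} {r : ContextFreeRule T G.NT} (hr : r ∈ G.rules) :
    G.Derives [.nonterminal r.input] r.output :=
  Produces.single ⟨r, hr, ContextFreeRule.Rewrites.input_output⟩

lemma lift_sound (g : ContextFreeGrammar T) {M : Type} (ι : g.NT → M)
    (sem : M → List (Option T) → Prop)
    (hs : ∀ A w, sem (ι A) w ↔ ∃ w' : List T, w = w'.map some ∧
      g.Derives [.nonterminal A] (w'.map Symbol.terminal))
    {r : ContextFreeRule T g.NT} (hr : r ∈ g.rules) (w : List (Option T))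
    (hw : Sem sem (liftR ι r).output w) : sem (liftR ι r).input w := by
  have key : ∀ (u : List (Symbol T g.NT)) w, Sem sem (u.map (lift ι)) w →
      ∃ w' : List T, w = w'.map some ∧ g.Derives u (w'.map Symbol.terminal) := by
    intro u
    induction u with
    | nil => rintro _ rfl; exact ⟨[], rfl, Derives.refl _⟩
    | cons x u ih =>
      cases x with
      | terminal x =>
        rintro _ ⟨w1, rfl, h1⟩
        obtain ⟨w', rfl, h2⟩ := ih _ h1
        exact ⟨x :: w', rfl, h2.append_left [.terminal x]⟩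
      | nonterminal A =>
        rintro _ ⟨w0, w1, rfl, h0, h1⟩
        obtain ⟨w', rfl, h2⟩ := ih _ h1
        obtain ⟨w'', rfl, h3⟩ := (hs _ _).1 h0
        exact ⟨w'' ++ w', by simp, by simpa using dapp h3 h2⟩
  obtain ⟨w', rfl, h⟩ := key _ _ hw
  exact (hs _ _).2 ⟨w', rfl, (drule hr).trans h⟩

lemma lift_complete (g : ContextFreeGrammar T) (G : ContextFreeGrammar (Option T))
    (ι : g.NT → G.NT) (h : ∀ r ∈ g.rules, liftR ι r ∈ G.rules) {w : List T}
    (hw : w ∈ g.language) :
    G.Derives [.nonterminal (ι g.initial)] ((w.map some).map Symbol.terminal) := by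
  have key : ∀ u v, g.Derives u v → G.Derives (u.map (lift ι)) (v.map (lift ι)) := by
    intro u v huv
    induction huv with
    | refl => exact Derives.refl _
    | tail _ h' ih =>
      refine ih.trans ?_
      obtain ⟨r, hr, hrw⟩ := h'
      obtain ⟨x, y, rfl, rfl⟩ := hrw.exists_parts
      simpa [liftR, lift] using dapp (Derives.refl (x.map (lift ι)))
        (dapp (drule (h r hr)) (Derives.refl (y.map (lift ι))))
  have := key _ _ hw
  simpa [lift, Function.comp_def] using this

def Id (L : Language T) (w : List T) : Prop := ∃ v ∈ L, v <:+: w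

abbrev NN (g1 g2 : ContextFreeGrammar T) := Fin 3 ⊕ g1.NT ⊕ g2.NT

def base (g1 g2 : ContextFreeGrammar T) :
    Fin 2 ⊕ Fin 3 × T ⊕ Unit → ContextFreeRule (Option T) (NN g1 g2)
  | .inl 0 => ⟨.inl 0, [.nonterminal (.inl 1)]⟩
  | .inl 1 => ⟨.inl 0, [.nonterminal (.inl 2), .nonterminal (.inr (.inl g1.initial)),
      .nonterminal (.inl 2), .terminal none, .nonterminal (.inl 2),
      .nonterminal (.inr (.inr g2.initial)), .nonterminal (.inl 2)]⟩
  | .inr (.inl (0, a)) => ⟨.inl 1, [.terminal (some a), .terminal none, .terminal (some a)]⟩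
  | .inr (.inl (1, a)) => ⟨.inl 1, [.terminal (some a), .nonterminal (.inl 1), .terminal (some a)]⟩
  | .inr (.inl (2, a)) => ⟨.inl 2, [.terminal (some a), .nonterminal (.inl 2)]⟩
  | .inr (.inr _) => ⟨.inl 2, []⟩

open Classical in
noncomputable abbrev GG [Fintype T] (g1 g2 : ContextFreeGrammar T) :
    ContextFreeGrammar (Option T) :=
  ⟨NN g1 g2, .inl 0, Finset.univ.image (base g1 g2) ∪
    (g1.rules.image (liftR fun A => .inr (.inl A)) ∪ g2.rules.image (liftR fun A => .inr (.inr A)))⟩

def WP (L1 L2 : Language T) (w : List (Option T)) : Prop :=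
  (∃ u : List T, u ≠ [] ∧ w = u.map some ++ [none] ++ u.reverse.map some) ∨
    ∃ u v : List T, Id L1 u ∧ Id L2 v ∧ w = u.map some ++ [none] ++ v.map some

def sm (g1 g2 : ContextFreeGrammar T) : NN g1 g2 → List (Option T) → Prop
  | .inl 0, w => WP g1.language g2.language w
  | .inl 1, w => ∃ u : List T, u ≠ [] ∧ w = u.map some ++ [none] ++ u.reverse.map some
  | .inl 2, w => ∃ u : List T, w = u.map some
  | .inr (.inl A), w => ∃ w' : List T, w = w'.map some ∧
      g1.Derives [.nonterminal A] (w'.map Symbol.terminal)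
  | .inr (.inr A), w => ∃ w' : List T, w = w'.map some ∧
      g2.Derives [.nonterminal A] (w'.map Symbol.terminal)

theorem GG_lang [Fintype T] (g1 g2 : ContextFreeGrammar T) (w : List (Option T)) :
    w ∈ (GG g1 g2).language ↔ WP g1.language g2.language w := by
  classical
  have hb : ∀ p, (GG g1 g2).Derives [.nonterminal (base g1 g2 p).input] (base g1 g2 p).output :=
    fun p => drule (G := GG g1 g2) (by simp)
  constructor
  · intro hw
    refine sound (GG g1 g2) (sm g1 g2) (fun r hr w hw => ?_) hw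
    simp only [Finset.mem_union, Finset.mem_image] at hr
    rcases hr with ⟨p, -, rfl⟩ | ⟨r, hr, rfl⟩ | ⟨r, hr, rfl⟩
    · rcases p with i | ⟨i, a⟩ | _
      · fin_cases i
        · obtain ⟨w1, _, rfl, h, rfl⟩ := hw
          rw [List.append_nil]
          exact Or.inl h
        · obtain ⟨_, _, rfl, ⟨p1, rfl⟩, _, _, rfl, ⟨v1, rfl, h1⟩, _, _, rfl, ⟨q1, rfl⟩, _, rfl,
            _, _, rfl, ⟨p2, rfl⟩, _, _, rfl, ⟨v2, rfl, h2⟩, _, _, rfl, ⟨q2, rfl⟩, rfl⟩ := hw
          exact Or.inr ⟨p1 ++ v1 ++ q1, p2 ++ v2 ++ q2, ⟨v1, h1, p1, q1, rfl⟩,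
            ⟨v2, h2, p2, q2, rfl⟩, by simp⟩
      · fin_cases i
        · obtain ⟨_, rfl, _, rfl, _, rfl, rfl⟩ := hw
          exact ⟨[a], by simp, by simp⟩
        · obtain ⟨_, rfl, _, _, rfl, ⟨u, _, rfl⟩, _, rfl, rfl⟩ := hw
          exact ⟨a :: u, by simp, by simp⟩
        · obtain ⟨_, rfl, _, _, rfl, ⟨u, rfl⟩, rfl⟩ := hw
          exact ⟨a :: u, by simp⟩
      · obtain rfl := hw
        exact ⟨[], rfl⟩
    · exact lift_sound g1 _ (sm g1 g2) (fun _ _ => Iff.rfl) hr w hw
    · exact lift_sound g2 _ (sm g1 g2) (fun _ _ => Iff.rfl) hr w hw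
  · have hZ : ∀ u : List T, (GG g1 g2).Derives [.nonterminal (.inl 2)]
        ((u.map some).map Symbol.terminal) := by
      intro u
      induction u with
      | nil => exact hb (.inr (.inr ()))
      | cons a u ih => exact (hb (.inr (.inl (2, a)))).trans (ih.append_left [.terminal (some a)])
    have hP : ∀ (u : List T) (a : T), (GG g1 g2).Derives [.nonterminal (.inl 1)]
        (((a :: u).map some ++ [none] ++ (a :: u).reverse.map some).map Symbol.terminal) := by
      intro u
      induction u with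
      | nil => intro a; exact hb (.inr (.inl (0, a)))
      | cons b u ih =>
        intro a
        refine (hb (.inr (.inl (1, a)))).trans ?_
        simpa [base] using ((ih b).append_left [.terminal (some a)]).append_right
          [.terminal (some a)]
    rintro (⟨u, hu, rfl⟩ | ⟨_, _, ⟨v1, h1, p1, q1, rfl⟩, ⟨v2, h2, p2, q2, rfl⟩, rfl⟩)
    · obtain ⟨a, u, rfl⟩ := List.exists_cons_of_ne_nil hu
      exact (hb (.inl 0)).trans (hP u a)
    · have e1 := lift_complete g1 (GG g1 g2) (fun A => .inr (.inl A)) (fun r hr => by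
        simp only [Finset.mem_union, Finset.mem_image]
        exact Or.inr (Or.inl ⟨r, hr, rfl⟩)) h1
      have e2 := lift_complete g2 (GG g1 g2) (fun A => .inr (.inr A)) (fun r hr => by
        simp only [Finset.mem_union, Finset.mem_image]
        exact Or.inr (Or.inr ⟨r, hr, rfl⟩)) h2
      refine (hb (.inl 1)).trans ?_
      simpa [base] using dapp (hZ p1) (dapp e1 (dapp (hZ q1) (dapp
        (Derives.refl [.terminal none]) (dapp (hZ p2) (dapp e2 (hZ q2))))))

lemma Id.append_right {L : Language T} {u : List T} (h : Id L u) (v : List T) : Id L (u ++ v) := by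
  obtain ⟨x, hx, p, q, rfl⟩ := h
  exact ⟨x, hx, p, q ++ v, by simp⟩

lemma Id.append_left {L : Language T} {u : List T} (h : Id L u) (v : List T) : Id L (v ++ u) := by
  obtain ⟨x, hx, p, q, rfl⟩ := h
  exact ⟨x, hx, v ++ p, q, by simp⟩

lemma id_reverse (L : Language T) (u : List T) : Id L.reverse u.reverse ↔ Id L u := by
  constructor
  · rintro ⟨x, hx, p, q, e⟩
    refine ⟨x.reverse, hx, q.reverse, p.reverse, ?_⟩
    rw [← List.reverse_reverse u, ← e]; simp
  · rintro ⟨x, hx, p, q, rfl⟩
    exact ⟨x.reverse, by simpa using hx, q.reverse, p.reverse, by simp⟩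

def Pl (T : Type) := {w : List T // w ≠ []}

instance : Semigroup (Pl T) where
  mul u v := ⟨u.1 ++ v.1, by simp [u.2]⟩
  mul_assoc u v w := Subtype.ext (List.append_assoc _ _ _)

def cg (L : Language T) : Con (Pl T) where
  r u v := u = v ∨ (Id L u.1 ∧ Id L v.1)
  iseqv := ⟨fun _ => Or.inl rfl, fun h => h.imp Eq.symm And.symm, by
    rintro x y z (rfl | h) h'
    · exact h'
    · rcases h' with rfl | h'
      · exact Or.inr h
      · exact Or.inr ⟨h.1, h'.2⟩⟩
  mul' := by
    rintro w x y z (rfl | h) h'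
    · rcases h' with rfl | h'
      · exact Or.inl rfl
      · exact Or.inr ⟨h'.1.append_left _, h'.2.append_left _⟩
    · exact Or.inr ⟨h.1.append_right _, h.2.append_right _⟩

def mq (L : Language T) (u : List T) (hu : u ≠ []) : (cg L).Quotient :=
  Con.toQuotient (c := cg L) ⟨u, hu⟩

lemma mq_eq {L : Language T} {u v : List T} {hu : u ≠ []} {hv : v ≠ []} :
    mq L u hu = mq L v hv ↔ u = v ∨ (Id L u ∧ Id L v) := by
  refine (Con.eq _).trans ⟨fun h => h.imp_left (congrArg Subtype.val), fun h => ?_⟩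
  exact h.imp_left fun e => Subtype.ext e

lemma mq_mul {L : Language T} {u v : List T} (hu : u ≠ []) (hv : v ≠ []) :
    mq L u hu * mq L v hv = mq L (u ++ v) (by simp [hu]) := rfl

lemma mq_surj {L : Language T} (x : (cg L).Quotient) : ∃ u hu, x = mq L u hu := by
  obtain ⟨⟨u, hu⟩, rfl⟩ := Quotient.exists_rep x
  exact ⟨u, hu, rfl⟩

def gen (L : Language T) (a : T) : (cg L).Quotient := mq L [a] (by simp)

lemma prod_gen (L : Language T) (u : List T) (hu : u ≠ []) :
    (u.map (fun a => ((gen L a : (cg L).Quotient) : WithOne (cg L).Quotient))).prod =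
      ((mq L u hu : (cg L).Quotient) : WithOne (cg L).Quotient) := by
  induction u with
  | nil => exact absurd rfl hu
  | cons a u ih =>
    by_cases h : u = []
    · subst h; simp [gen]
    · rw [List.map_cons, List.prod_cons, ih h, ← WithOne.coe_mul]; rfl

lemma gen_top (L : Language T) : Subsemigroup.closure (Set.range (gen L)) = ⊤ := by
  rw [eq_top_iff]
  rintro x -
  obtain ⟨u, hu, rfl⟩ := mq_surj x
  induction u with
  | nil => exact absurd rfl hu
  | cons a u ih =>
    by_cases h : u = []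
    · subst h; exact Subsemigroup.subset_closure ⟨a, rfl⟩
    · exact Subsemigroup.mul_mem _
        (Subsemigroup.subset_closure (Set.mem_range_self (f := gen L) a)) (ih h)

lemma inf (L : Language T) (h : {u : List T | ¬ Id L u}.Infinite) : Infinite (cg L).Quotient := by
  have h' := (h.sdiff (Set.finite_singleton [])).to_subtype
  refine Infinite.of_injective (fun u : ↥({u : List T | ¬ Id L u} \ {[]}) =>
    mq L u.1 u.2.2) fun u v e => ?_
  rcases mq_eq.1 e with e | e
  · exact Subtype.ext e
  · exact absurd e.1 u.2.1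

lemma per (L : Language T) (h : ∀ w : List T, w ≠ [] → ∃ n, Id L (List.replicate n w).flatten)
    (x : (cg L).Quotient) : (Subsemigroup.closure ({x} : Set (cg L).Quotient) :
      Set (cg L).Quotient).Finite := by
  obtain ⟨u, hu, rfl⟩ := mq_surj x
  obtain ⟨n, hn⟩ := h u hu
  let F : ℕ → (cg L).Quotient := fun k => mq L (List.replicate (k + 1) u).flatten (by
    simp [List.replicate_succ, hu])
  have hI : ∀ k, n ≤ k → Id L (List.replicate (k + 1) u).flatten := by
    intro k hk
    obtain ⟨d, hd⟩ : ∃ d, k + 1 = n + d := ⟨k + 1 - n, by omega⟩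
    rw [hd, List.replicate_add, List.flatten_append]
    exact hn.append_right _
  refine ((Set.finite_Iic n).image F).subset fun y hy => ?_
  have : ∃ k, y = F k := by
    induction hy using Subsemigroup.closure_induction with
    | mem y hy => exact ⟨0, by rw [hy]; exact mq_eq.2 (Or.inl (by simp))⟩
    | mul a b _ _ ha hb =>
      obtain ⟨i, rfl⟩ := ha
      obtain ⟨j, rfl⟩ := hb
      refine ⟨i + j + 1, (mq_mul _ _).trans (mq_eq.2 (Or.inl ?_))⟩
      rw [← List.flatten_append, ← List.replicate_add]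
      congr 2
      omega
  obtain ⟨k, rfl⟩ := this
  by_cases hk : k ≤ n
  · exact ⟨k, hk, rfl⟩
  · exact ⟨n, le_refl n, mq_eq.2 (Or.inr ⟨hI n le_rfl, hI k (by omega)⟩)⟩

theorem cf [Fintype T] (g : ContextFreeGrammar T) (h0 : ∀ v ∈ g.language, v ≠ []) :
    Language.IsContextFree ({w : List (Option T) | ∃ u v : List T, u ≠ [] ∧ v ≠ [] ∧
      (u.map (fun a => ((gen g.language a : (cg g.language).Quotient) :
        WithOne (cg g.language).Quotient))).prod =
      (v.map (fun a => ((gen g.language a : (cg g.language).Quotient) :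
        WithOne (cg g.language).Quotient))).prod ∧
      w = u.map some ++ [none] ++ v.reverse.map some} : Language (Option T)) := by
  refine ⟨GG g g.reverse, ?_⟩
  ext w
  rw [GG_lang, language_reverse]
  have hne : ∀ u, Id g.language u → u ≠ [] := by
    rintro _ ⟨v, hv, p, q, rfl⟩
    simp [h0 v hv]
  constructor
  · rintro (⟨u, hu, rfl⟩ | ⟨u, v, hu, hv, rfl⟩)
    · exact ⟨u, u, hu, hu, rfl, rfl⟩
    · rw [← List.reverse_reverse v, id_reverse] at hv
      refine ⟨u, v.reverse, hne _ hu, hne _ hv, ?_, by simp⟩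
      rw [prod_gen _ _ (hne _ hu), prod_gen _ _ (hne _ hv), WithOne.coe_inj]
      exact mq_eq.2 (Or.inr ⟨hu, hv⟩)
  · rintro ⟨u, v, hu, hv, e, rfl⟩
    rw [prod_gen _ _ hu, prod_gen _ _ hv, WithOne.coe_inj] at e
    rcases mq_eq.1 e with rfl | e
    · exact Or.inl ⟨u, hu, rfl⟩
    · exact Or.inr ⟨u, v.reverse, e.1, (id_reverse _ _).2 e.2, rfl⟩

end general

end Pool.Agent.H.MP_977c67_al
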